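import Pool.Agent.J4.H80.HB.C
import Pool.Agent.N825.FC.App

/-! # Exponential sums over subgroups in terms of the energy -/

set_option autoImplicit false

namespace Pool.Agent.J4.H80.HB

open Finset Pool.Agent.N825.FC

variable {P : ℕ} [Fact P.Prime]

/-- The exponential sums over the cosets of a subgroup. -/
theorem sub_sum2 (H : Subgroup (ZMod P)ˣ) (S : Finset (ZMod P))
    (hS : ∀ x, x ∈ S ↔ ∃ h ∈ H, ((h : (ZMod P)ˣ) : ZMod P) = x) (t : ℕ) (ht : S.card = t)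
    (ht1 : 1 ≤ t) (x : ZMod P) (hx : x ≠ 0) :
    ((t : ℝ) * ‖∑ y ∈ S, (ZMod.stdAddChar (x * y) : ℂ)‖ ^ 4 ≤
      P * ∑ x : ZMod P, (rr S x : ℝ) ^ 2) ∧
    ‖∑ y ∈ S, (ZMod.stdAddChar (x * y) : ℂ)‖ ^ 8 ≤ P * (∑ x : ZMod P, (rr S x : ℝ) ^ 2) ^ 2 := by
  classical
  have ht0 : (0 : ℝ) < t := by exact_mod_cast ht1
  set F : ZMod P → ℂ := fun z => ∑ y ∈ S, (ZMod.stdAddChar (z * y) : ℂ) with hF
  have hinv : ∀ z, ∀ y ∈ S, F (z * y) = F z := by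
    intro z y hy
    obtain ⟨h, hh, rfl⟩ := (hS y).1 hy
    simp only [hF]
    refine sum_bij' (fun w _ => (h : ZMod P) * w) (fun w _ => ((h⁻¹ : (ZMod P)ˣ) : ZMod P) * w)
      ?_ ?_ ?_ ?_ ?_
    · intro w hw
      obtain ⟨k, hk, rfl⟩ := (hS w).1 hw
      exact (hS _).2 ⟨h * k, H.mul_mem hh hk, Units.val_mul h k⟩
    · intro w hw
      obtain ⟨k, hk, rfl⟩ := (hS w).1 hw
      exact (hS _).2 ⟨h⁻¹ * k, H.mul_mem (H.inv_mem hh) hk, Units.val_mul h⁻¹ k⟩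
    · intro w _
      show ((h⁻¹ : (ZMod P)ˣ) : ZMod P) * ((h : ZMod P) * w) = w
      rw [← mul_assoc, Units.inv_mul, one_mul]
    · intro w _
      show (h : ZMod P) * (((h⁻¹ : (ZMod P)ˣ) : ZMod P) * w) = w
      rw [← mul_assoc, Units.mul_inv, one_mul]
    · intro w _
      rw [mul_assoc]
  have hinj : Set.InjOn (fun y => x * y) (S : Set (ZMod P)) := fun a _ b _ hab =>
    mul_left_cancel₀ hx hab
  set En : ℝ := ∑ x : ZMod P, (rr S x : ℝ) ^ 2 with hEn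
  have hEn' := energy_eq S
  rw [← hEn] at hEn'
  have hm4 : ∑ a : ZMod P, ‖F a‖ ^ 4 ≤ P * En := by
    have h1 := pars (P := P) (S ×ˢ S) (fun w => w.1 - w.2) (fun _ => 1) (fun _ => by simp)
    have h2 : ∀ a : ZMod P, ‖∑ b ∈ S ×ˢ S, (ZMod.stdAddChar (a * (b.1 - b.2)) : ℂ) * 1‖ ^ 2 =
        ‖F a‖ ^ 4 := by
      intro a
      have h3 : ∑ b ∈ S ×ˢ S, (ZMod.stdAddChar (a * (b.1 - b.2)) : ℂ) * 1 =
          F a * (starRingEnd ℂ) (F a) := by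
        simp only [hF]
        rw [map_sum, sum_mul_sum, sum_product]
        refine sum_congr rfl fun b _ => sum_congr rfl fun b' _ => ?_
        rw [conj_char, mul_sub, sub_eq_add_neg, AddChar.map_add_eq_mul, mul_one]
      rw [h3, norm_mul, RCLike.norm_conj]
      ring
    rw [sum_congr rfl fun a _ => h2 a] at h1
    rw [← hEn']
    exact h1
  constructor
  · calc (t : ℝ) * ‖F x‖ ^ 4 = ∑ y ∈ S, ‖F (x * y)‖ ^ 4 := by
          rw [sum_congr rfl fun y hy => by rw [hinv x y hy], sum_const, ht, nsmul_eq_mul]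
      _ = ∑ z ∈ S.image (fun y => x * y), ‖F z‖ ^ 4 := by rw [sum_image hinj]
      _ ≤ ∑ z : ZMod P, ‖F z‖ ^ 4 :=
          sum_le_sum_of_subset_of_nonneg (subset_univ _) fun _ _ _ => by positivity
      _ ≤ _ := hm4
  · have h1 : (t : ℝ) * ‖F x‖ ^ 2 ≤ ∑ w ∈ S ×ˢ S, ‖F (x * (w.1 - w.2))‖ := by
      have h2 : ((t : ℝ) * ‖F x‖ ^ 2 : ℝ) = ‖∑ w ∈ S ×ˢ S, F (x * (w.1 - w.2))‖ := by
        have h3 : ∑ w ∈ S ×ˢ S, F (x * (w.1 - w.2)) =
            ∑ y ∈ S, F (x * y) * (starRingEnd ℂ) (F (x * y)) := by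
          have h4 : ∀ y ∈ S, F (x * y) * (starRingEnd ℂ) (F (x * y)) =
              ∑ w ∈ S ×ˢ S, (ZMod.stdAddChar (x * (w.1 - w.2) * y) : ℂ) := by
            intro y _
            simp only [hF]
            rw [map_sum, sum_mul_sum, sum_product]
            refine sum_congr rfl fun b _ => sum_congr rfl fun b' _ => ?_
            rw [conj_char, ← AddChar.map_add_eq_mul]
            congr 1
            ring
          rw [sum_congr rfl h4, sum_comm]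
        rw [h3, sum_congr rfl fun y hy => by rw [hinv x y hy], sum_const, ht, nsmul_eq_mul,
          norm_mul, norm_mul, RCLike.norm_conj, Complex.norm_natCast]
        ring
      rw [h2]
      exact norm_sum_le _ _
    set r : ZMod P → ℝ := fun d => (rr S d : ℝ) with hr
    have h2 : ∑ w ∈ S ×ˢ S, ‖F (x * (w.1 - w.2))‖ = ∑ d : ZMod P, r d * ‖F (x * d)‖ := by
      rw [← sum_fiberwise_of_maps_to (s := S ×ˢ S) (t := univ) (g := fun w => w.1 - w.2)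
        (fun _ _ => mem_univ _)]
      refine sum_congr rfl fun d _ => ?_
      rw [sum_congr rfl (g := fun _ => ‖F (x * d)‖) (fun w hw => by rw [(mem_filter.1 hw).2]),
        sum_const, nsmul_eq_mul]
      rfl
    have hr0 : ∀ d, 0 ≤ r d := fun d => Nat.cast_nonneg _
    have h3 : ∑ d : ZMod P, r d = t ^ 2 := by
      rw [← ht]
      exact sum_rr S
    have h5 : ∑ d : ZMod P, ‖F (x * d)‖ ^ 4 = ∑ a : ZMod P, ‖F a‖ ^ 4 :=
      Fintype.sum_bijective (fun d => x * d) (mulLeft_bijective₀ x hx) _ _ fun _ => rfl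
    have c1 : (∑ d : ZMod P, r d * ‖F (x * d)‖) ^ 2 ≤
        (∑ d : ZMod P, r d) * ∑ d : ZMod P, r d * ‖F (x * d)‖ ^ 2 := by
      have := sum_mul_sq_le_sq_mul_sq (univ : Finset (ZMod P)) (fun d => Real.sqrt (r d))
        (fun d => Real.sqrt (r d) * ‖F (x * d)‖)
      have e1 : ∀ d, Real.sqrt (r d) * (Real.sqrt (r d) * ‖F (x * d)‖) = r d * ‖F (x * d)‖ := by
        intro d
        rw [← mul_assoc, Real.mul_self_sqrt (hr0 d)]
      have e2 : ∀ d, Real.sqrt (r d) ^ 2 = r d := fun d => Real.sq_sqrt (hr0 d)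
      have e3 : ∀ d, (Real.sqrt (r d) * ‖F (x * d)‖) ^ 2 = r d * ‖F (x * d)‖ ^ 2 := by
        intro d
        rw [mul_pow, Real.sq_sqrt (hr0 d)]
      simp only [e1, e2, e3] at this
      exact this
    have c2 : (∑ d : ZMod P, r d * ‖F (x * d)‖ ^ 2) ^ 2 ≤
        (∑ d : ZMod P, r d ^ 2) * ∑ d : ZMod P, ‖F (x * d)‖ ^ 4 := by
      have := sum_mul_sq_le_sq_mul_sq (univ : Finset (ZMod P)) r (fun d => ‖F (x * d)‖ ^ 2)
      have e3 : ∀ d, (‖F (x * d)‖ ^ 2) ^ 2 = ‖F (x * d)‖ ^ 4 := fun d => by ring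
      simp only [e3] at this
      exact this
    rw [h5] at c2
    have h4 : ∑ d : ZMod P, r d ^ 2 = En := rfl
    rw [h4] at c2
    rw [h3] at c1
    rw [h2] at h1
    have hEn0 : 0 ≤ En := sum_nonneg fun _ _ => by positivity
    have d1 : ((t : ℝ) * ‖F x‖ ^ 2) ^ 2 ≤ t ^ 2 * ∑ d : ZMod P, r d * ‖F (x * d)‖ ^ 2 :=
      (pow_le_pow_left₀ (by positivity) h1 2).trans c1
    have d2 : (((t : ℝ) * ‖F x‖ ^ 2) ^ 2) ^ 2 ≤
        (t ^ 2 * ∑ d : ZMod P, r d * ‖F (x * d)‖ ^ 2) ^ 2 :=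
      pow_le_pow_left₀ (by positivity) d1 2
    have d3 : (t ^ 2 * ∑ d : ZMod P, r d * ‖F (x * d)‖ ^ 2) ^ 2 ≤ (t : ℝ) ^ 4 * (P * En ^ 2) := by
      calc (t ^ 2 * ∑ d : ZMod P, r d * ‖F (x * d)‖ ^ 2) ^ 2 =
          (t : ℝ) ^ 4 * (∑ d : ZMod P, r d * ‖F (x * d)‖ ^ 2) ^ 2 := by ring
        _ ≤ (t : ℝ) ^ 4 * (En * ∑ a : ZMod P, ‖F a‖ ^ 4) :=
            mul_le_mul_of_nonneg_left c2 (by positivity)
        _ ≤ (t : ℝ) ^ 4 * (En * (P * En)) :=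
            mul_le_mul_of_nonneg_left (mul_le_mul_of_nonneg_left hm4 hEn0) (by positivity)
        _ = _ := by ring
    have d4 : (t : ℝ) ^ 4 * ‖F x‖ ^ 8 ≤ (t : ℝ) ^ 4 * (P * En ^ 2) := by
      calc (t : ℝ) ^ 4 * ‖F x‖ ^ 8 = (((t : ℝ) * ‖F x‖ ^ 2) ^ 2) ^ 2 := by ring
        _ ≤ _ := d2.trans d3
    exact le_of_mul_le_mul_left d4 (by positivity)

/-- **The bounds of Heath-Brown and Konyagin** for a subgroup of order `≤ T`, `T ^ 3 < P ^ 2`. -/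
theorem sub_sum3 (H : Subgroup (ZMod P)ˣ) [Fintype H] (T : ℝ)
    (hT : (Fintype.card H : ℝ) ≤ T) (hTP : T ^ 3 < (P : ℝ) ^ 2) (x : ZMod P) (hx : x ≠ 0) :
    ‖∑ k : H, (ZMod.stdAddChar (x * ((k : (ZMod P)ˣ) : ZMod P)) : ℂ)‖ ≤
      6 * min ((P : ℝ) ^ (1 / 4 : ℝ) * T ^ (3 / 8 : ℝ)) ((P : ℝ) ^ (1 / 8 : ℝ) * T ^ (5 / 8 : ℝ)) := by
  classical
  have hP : (0 : ℝ) < P := by exact_mod_cast (Nat.Prime.pos Fact.out : 0 < P)
  set S : Finset (ZMod P) := (univ : Finset H).image (fun k : H => ((k : (ZMod P)ˣ) : ZMod P)) with hSdef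
  have hinjH : Function.Injective (fun k : H => ((k : (ZMod P)ˣ) : ZMod P)) := fun a b h =>
    Subtype.ext (Units.ext h)
  have hS : ∀ x, x ∈ S ↔ ∃ h ∈ H, ((h : (ZMod P)ˣ) : ZMod P) = x := by
    intro x
    rw [hSdef, mem_image]
    constructor
    · rintro ⟨k, _, rfl⟩
      exact ⟨k, k.2, rfl⟩
    · rintro ⟨h, hh, rfl⟩
      exact ⟨⟨h, hh⟩, mem_univ _, rfl⟩
  have hScard : S.card = Fintype.card H := by
    rw [hSdef, card_image_of_injective _ hinjH, card_univ]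
  set t := Fintype.card H with ht
  have ht1 : 1 ≤ t := Fintype.card_pos
  have ht0 : (0 : ℝ) < t := by exact_mod_cast ht1
  have hT0 : 0 < T := lt_of_lt_of_le ht0 hT
  have htp : t ^ 3 < P ^ 2 := by
    have : (t : ℝ) ^ 3 < (P : ℝ) ^ 2 := lt_of_le_of_lt (pow_le_pow_left₀ ht0.le hT 3) hTP
    exact_mod_cast this
  have hen := energy52 H S hS t hScard ht1 htp
  obtain ⟨a1, a2⟩ := sub_sum2 H S hS t hScard ht1 x hx
  have hsum : ∑ k : H, (ZMod.stdAddChar (x * ((k : (ZMod P)ˣ) : ZMod P)) : ℂ) =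
      ∑ y ∈ S, (ZMod.stdAddChar (x * y) : ℂ) := by
    rw [hSdef, sum_image (fun a _ b _ h => hinjH h)]
  rw [hsum]
  set F : ℝ := ‖∑ y ∈ S, (ZMod.stdAddChar (x * y) : ℂ)‖ with hF
  have hF0 : 0 ≤ F := norm_nonneg _
  rw [mul_min_of_nonneg _ _ (by norm_num : (0 : ℝ) ≤ 6)]
  refine le_min ?_ ?_
  · have h1 : F ^ 4 ≤ 700 * (P * (t : ℝ) ^ (3 / 2 : ℝ)) := by
      have h2 : (t : ℝ) * F ^ 4 ≤ t * (700 * (P * (t : ℝ) ^ (3 / 2 : ℝ))) := by
        refine a1.trans ((mul_le_mul_of_nonneg_left hen hP.le).trans (le_of_eq ?_))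
        have : (t : ℝ) ^ (5 / 2 : ℝ) = t * (t : ℝ) ^ (3 / 2 : ℝ) := by
          rw [show (5 / 2 : ℝ) = 1 + 3 / 2 by norm_num, Real.rpow_add ht0, Real.rpow_one]
        rw [this]
        ring
      exact le_of_mul_le_mul_left h2 ht0
    have h3 : F ^ 4 ≤ (6 * ((P : ℝ) ^ (1 / 4 : ℝ) * T ^ (3 / 8 : ℝ))) ^ 4 := by
      have e1 : (6 * ((P : ℝ) ^ (1 / 4 : ℝ) * T ^ (3 / 8 : ℝ))) ^ 4 = 1296 * (P * T ^ (3 / 2 : ℝ)) := by
        rw [mul_pow, mul_pow, ← Real.rpow_natCast ((P : ℝ) ^ (1 / 4 : ℝ)) 4,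
          ← Real.rpow_natCast (T ^ (3 / 8 : ℝ)) 4, ← Real.rpow_mul hP.le, ← Real.rpow_mul hT0.le]
        norm_num
      rw [e1]
      refine h1.trans ?_
      have e2 : (t : ℝ) ^ (3 / 2 : ℝ) ≤ T ^ (3 / 2 : ℝ) := Real.rpow_le_rpow ht0.le hT (by norm_num)
      have e3 : 0 ≤ (P : ℝ) * T ^ (3 / 2 : ℝ) := by positivity
      have e4 := mul_le_mul_of_nonneg_left e2 hP.le
      linarith
    exact (pow_le_pow_iff_left₀ hF0 (by positivity) (by norm_num)).1 h3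
  · have h1 : F ^ 8 ≤ 490000 * (P * (t : ℝ) ^ (5 : ℝ)) := by
      have hen2 : (∑ x : ZMod P, (rr S x : ℝ) ^ 2) ^ 2 ≤ (700 * (t : ℝ) ^ (5 / 2 : ℝ)) ^ 2 :=
        pow_le_pow_left₀ (sum_nonneg fun _ _ => by positivity) hen 2
      refine a2.trans ((mul_le_mul_of_nonneg_left hen2 hP.le).trans (le_of_eq ?_))
      have : ((t : ℝ) ^ (5 / 2 : ℝ)) ^ 2 = (t : ℝ) ^ (5 : ℝ) := by
        rw [← Real.rpow_natCast, ← Real.rpow_mul ht0.le]
        norm_num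
      rw [mul_pow, this]
      ring
    have h3 : F ^ 8 ≤ (6 * ((P : ℝ) ^ (1 / 8 : ℝ) * T ^ (5 / 8 : ℝ))) ^ 8 := by
      have e1 : (6 * ((P : ℝ) ^ (1 / 8 : ℝ) * T ^ (5 / 8 : ℝ))) ^ 8 = 1679616 * (P * T ^ (5 : ℝ)) := by
        rw [mul_pow, mul_pow, ← Real.rpow_natCast ((P : ℝ) ^ (1 / 8 : ℝ)) 8,
          ← Real.rpow_natCast (T ^ (5 / 8 : ℝ)) 8, ← Real.rpow_mul hP.le, ← Real.rpow_mul hT0.le]
        norm_num
      rw [e1]
      refine h1.trans ?_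
      have e2 : (t : ℝ) ^ (5 : ℝ) ≤ T ^ (5 : ℝ) := Real.rpow_le_rpow ht0.le hT (by norm_num)
      have e3 : 0 ≤ (P : ℝ) * T ^ (5 : ℝ) := by positivity
      have e4 := mul_le_mul_of_nonneg_left e2 hP.le
      linarith
    exact (pow_le_pow_iff_left₀ hF0 (by positivity) (by norm_num)).1 h3

end Pool.Agent.J4.H80.HB
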