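import Pool.Agent.H435R3.HBK.Step

/-! # Stepanov's method for several systems `u ^ t = α_i`, `(u - 1) ^ t = β_i` -/

set_option autoImplicit false

namespace Pool.Agent.J4.H80.HB

open Polynomial Finset Pool.Agent.H435R3.HBK

variable {p : ℕ} [Fact p.Prime]

/-- linear algebra -/
theorem exists_gm (n A B D : ℕ) (hD : n * (D * (A + D)) < B * (B * A))
    (w : Fin n → ℕ → ℕ → ZMod p) (Q : ℕ → ℕ → ℕ → (ZMod p)[X] →ₗ[ZMod p] (ZMod p)[X])
    (hQ : ∀ b c k h, (Q b c k h).natDegree ≤ h.natDegree + k) :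
    ∃ g : ℕ → ℕ → (ZMod p)[X], (∀ b c, (g b c).degree < A) ∧
      (∃ b, b < B ∧ ∃ c, c < B ∧ g b c ≠ 0) ∧
      ∀ j, ∀ k < D, ∑ b ∈ range B, ∑ c ∈ range B, C (w j b c) * Q b c k (g b c) = 0 := by
  classical
  set poly : (Fin A → ZMod p) →ₗ[ZMod p] (ZMod p)[X] :=
    (degreeLT (ZMod p) A).subtype ∘ₗ (degreeLTEquiv (ZMod p) A).symm.toLinearMap with hpoly
  have hpdeg : ∀ v, (poly v).degree < A := fun v =>
    mem_degreeLT.1 ((degreeLTEquiv (ZMod p) A).symm v).2
  have hpinj : ∀ v, poly v = 0 → v = 0 := by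
    intro v hv
    have h1 : (degreeLTEquiv (ZMod p) A).symm v = 0 := Subtype.ext hv
    exact (LinearEquiv.map_eq_zero_iff _).1 h1
  set L : (Fin B → Fin B → Fin A → ZMod p) →ₗ[ZMod p] (Fin n → Fin D → Fin (A + D) → ZMod p) :=
    LinearMap.pi fun j => LinearMap.pi fun k => LinearMap.pi fun i => ∑ b : Fin B, ∑ c : Fin B,
      w j b c • (lcoeff (ZMod p) (i : ℕ) ∘ₗ Q b c k ∘ₗ poly ∘ₗ LinearMap.proj c ∘ₗ
        LinearMap.proj b) with hL
  have hrank : Module.finrank (ZMod p) (Fin n → Fin D → Fin (A + D) → ZMod p) <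
      Module.finrank (ZMod p) (Fin B → Fin B → Fin A → ZMod p) := by
    simp only [Module.finrank_pi_fintype, Module.finrank_self, sum_const, card_univ,
      Fintype.card_fin, smul_eq_mul, mul_one]
    exact hD
  have hker := LinearMap.ker_ne_bot_of_finrank_lt (f := L) hrank
  obtain ⟨v, hv, hv0⟩ := (Submodule.ne_bot_iff _).1 hker
  rw [LinearMap.mem_ker] at hv
  set g : ℕ → ℕ → (ZMod p)[X] := fun b c =>
    if hb : b < B then if hc : c < B then poly (v ⟨b, hb⟩ ⟨c, hc⟩) else 0 else 0 with hg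
  have hg1 : ∀ (b c : Fin B), g b c = poly (v b c) := by
    intro b c
    rw [hg]
    simp only [dif_pos b.2, dif_pos c.2]
  have hgdeg : ∀ b c, (g b c).degree < A := by
    intro b c
    by_cases hb : b < B
    · by_cases hc : c < B
      · rw [hg1 ⟨b, hb⟩ ⟨c, hc⟩]
        exact hpdeg _
      · rw [hg]
        simp only [dif_pos hb, dif_neg hc, degree_zero]
        exact WithBot.bot_lt_coe _
    · rw [hg]
      simp only [dif_neg hb, degree_zero]
      exact WithBot.bot_lt_coe _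
  refine ⟨g, hgdeg, ?_, ?_⟩
  · by_contra hcon
    push Not at hcon
    apply hv0
    funext b c
    refine hpinj _ ?_
    rw [← hg1]
    exact hcon b b.2 c c.2
  · intro j k hk
    ext i
    rw [coeff_zero, finsetSum_coeff, Finset.sum_range]
    have e1 : ∀ b : Fin B, (∑ c ∈ range B, C (w j b c) * Q b c k (g b c)).coeff i =
        ∑ c : Fin B, w j b c * (Q b c k (poly (v b c))).coeff i := by
      intro b
      rw [finsetSum_coeff, Finset.sum_range]
      refine sum_congr rfl fun c _ => ?_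
      rw [coeff_C_mul, hg1]
    rw [sum_congr rfl fun b _ => e1 b]
    by_cases hi : i < A + D
    · have h1 := congrFun (congrFun (congrFun hv j) ⟨k, hk⟩) ⟨i, hi⟩
      rw [hL] at h1
      simpa using h1
    · refine sum_eq_zero fun b _ => sum_eq_zero fun c _ => ?_
      rw [coeff_eq_zero_of_natDegree_lt, mul_zero]
      refine (hQ _ _ _ _).trans_lt ?_
      have h2 : (poly (v b c)).natDegree ≤ A := natDegree_le_of_degree_le (hpdeg _).le
      omega

theorem stepanov_m (n t A B D : ℕ) (hA : 1 ≤ A) (hAt : A ≤ t) (hAB : A * B ≤ t)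
    (hp : A + t * (B - 1) < p) (hD : n * (D * (A + D)) < B * (B * A)) (hDp : D ≤ p)
    (α β : Fin n → ZMod p) (hα : ∀ j, α j ≠ 0) (hβ : ∀ j, β j ≠ 0) (U : Finset (ZMod p))
    (hU : ∀ u ∈ U, ∃ j, u ^ t = α j ∧ (u - 1) ^ t = β j) :
    U.card * D ≤ A + 2 * (t * (B - 1)) := by
  classical
  have ht : t ≠ 0 := by omega
  obtain ⟨g, hgdeg, ⟨b₀, hb₀, c₀, hc₀, hg0⟩, hgR⟩ := exists_gm (p := p) n A B D hD
    (fun j b c => α j ^ b * β j ^ c) (fun b c k => PP (t * b) (t * c) k)
    (fun b c k h => PP_deg _ _ _ _)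
  have hΨ : Psi t B g ≠ 0 := by
    intro h0
    exact hg0 (nonvan t A B hA hAt hAB hp g hgdeg h0 b₀ hb₀ c₀ hc₀)
  have hdvd : ∀ u ∈ U, (X - C u) ^ D ∣ Psi t B g := by
    intro u hu
    obtain ⟨j, hu1, hu2⟩ := hU u hu
    have hu0 : u ≠ 0 := by
      rintro rfl
      rw [zero_pow ht] at hu1
      exact hα j hu1.symm
    have hu0' : u - 1 ≠ 0 := by
      intro h0
      rw [h0, zero_pow ht] at hu2
      exact hβ j hu2.symm
    have hroot : ∀ k < D, (derivative^[k] (Psi t B g)).IsRoot u := by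
      intro k hk
      have h1 : (X * (X - 1)) ^ k * derivative^[k] (Psi t B g) =
          ∑ b ∈ range B, ∑ c ∈ range B,
            X ^ (t * b) * (X - 1) ^ (t * c) * PP (t * b) (t * c) k (g b c) := by
        unfold Psi
        rw [iterate_derivative_sum, mul_sum]
        refine sum_congr rfl fun b _ => ?_
        rw [iterate_derivative_sum, mul_sum]
        exact sum_congr rfl fun c _ => PP_main _ _ _ _
      have h2 := congrArg (eval u) h1
      rw [eval_mul, eval_finsetSum] at h2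
      have h3 : ∑ b ∈ range B, eval u (∑ c ∈ range B,
            X ^ (t * b) * (X - 1) ^ (t * c) * PP (t * b) (t * c) k (g b c)) =
          eval u (∑ b ∈ range B, ∑ c ∈ range B,
            C (α j ^ b * β j ^ c) * PP (t * b) (t * c) k (g b c)) := by
        rw [eval_finsetSum]
        refine sum_congr rfl fun b _ => ?_
        rw [eval_finsetSum, eval_finsetSum]
        refine sum_congr rfl fun c _ => ?_
        rw [eval_mul, eval_mul, eval_mul, eval_pow, eval_pow, eval_X, eval_sub, eval_X, eval_one,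
          eval_C, pow_mul, pow_mul, hu1, hu2]
      rw [h3, hgR j k hk, eval_zero] at h2
      rcases mul_eq_zero.1 h2 with h4 | h4
      · exfalso
        rw [eval_pow, eval_mul, eval_X, eval_sub, eval_X, eval_one] at h4
        exact pow_ne_zero k (mul_ne_zero hu0 hu0') h4
      · exact h4
    rcases Nat.eq_zero_or_pos D with h0 | h0
    · rw [h0, pow_zero]
      exact one_dvd _
    · have h1 : D - 1 < (Psi t B g).rootMultiplicity u := by
        refine lt_rootMultiplicity_of_isRoot_iterate_derivative_of_mem_nonZeroDivisors' hΨ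
          (fun m hm => hroot m (by omega)) (fun m hm hm0 => ?_)
        rw [mem_nonZeroDivisors_iff_ne_zero, ne_eq, ZMod.natCast_eq_zero_iff]
        intro h2
        have := Nat.le_of_dvd (by omega) h2
        omega
      exact (pow_dvd_pow _ (by omega)).trans (pow_rootMultiplicity_dvd _ _)
  have hprod : (∏ u ∈ U, (X - C u) ^ D) ∣ Psi t B g := by
    refine Finset.prod_dvd_of_coprime (fun a _ b _ hab => ?_) hdvd
    refine IsCoprime.pow ?_
    exact isCoprime_X_sub_C_of_isUnit_sub (sub_ne_zero.2 hab).isUnit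
  have h1 := natDegree_le_of_dvd hprod hΨ
  rw [natDegree_prod_of_monic _ _ fun u _ => (monic_X_sub_C u).pow D] at h1
  have h2 : ∑ u ∈ U, ((X - C u) ^ D).natDegree = U.card * D := by
    rw [sum_congr rfl (fun u _ => by rw [natDegree_pow, natDegree_X_sub_C, mul_one]), sum_const,
      smul_eq_mul]
  rw [h2] at h1
  refine h1.trans ?_
  unfold Psi
  refine natDegree_sum_le_of_forall_le _ _ fun b hb => ?_
  refine natDegree_sum_le_of_forall_le _ _ fun c hc => ?_
  rw [mem_range] at hb hc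
  have hX1 : (X - 1 : (ZMod p)[X]).natDegree ≤ 1 := by
    have : (X - 1 : (ZMod p)[X]) = X - C 1 := by simp
    rw [this]
    exact natDegree_X_sub_C_le 1
  have e1 : (X ^ (t * b) : (ZMod p)[X]).natDegree ≤ t * (B - 1) := by
    rw [natDegree_X_pow]
    exact Nat.mul_le_mul_left t (by omega)
  have e2 : ((X - 1) ^ (t * c) : (ZMod p)[X]).natDegree ≤ t * (B - 1) := by
    refine natDegree_pow_le.trans ?_
    calc t * c * (X - 1 : (ZMod p)[X]).natDegree ≤ t * c * 1 := Nat.mul_le_mul_left _ hX1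
      _ ≤ t * (B - 1) := by rw [mul_one]; exact Nat.mul_le_mul_left t (by omega)
  have e3 : (g b c).natDegree ≤ A := natDegree_le_of_degree_le (hgdeg b c).le
  have e4 := natDegree_mul_le (p := (X ^ (t * b) : (ZMod p)[X])) (q := (X - 1) ^ (t * c) * g b c)
  have e5 := natDegree_mul_le (p := ((X - 1) ^ (t * c) : (ZMod p)[X])) (q := g b c)
  omega

/-- the lemma of Heath-Brown and Konyagin for several cosets -/
theorem hbk_m (n t : ℕ) (h27 : 27 ≤ n * t) (h512 : 512 * n ≤ t ^ 2)
    (htp : n * t ^ 4 < p ^ 3)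
    (α β : Fin n → ZMod p) (hα : ∀ j, α j ≠ 0) (hβ : ∀ j, β j ≠ 0) (U : Finset (ZMod p))
    (hU : ∀ u ∈ U, ∃ j, u ^ t = α j ∧ (u - 1) ^ t = β j) :
    U.card ^ 3 ≤ 3375 * (n * t) ^ 2 := by
  classical
  have hn : 1 ≤ n := by
    rcases Nat.eq_zero_or_pos n with h | h
    · subst h; simp at h27
    · exact h
  have ht : 1 ≤ t := by
    rcases Nat.eq_zero_or_pos t with h | h
    · subst h; simp at h27
    · exact h
  obtain ⟨s, hs1, hs2⟩ : ∃ s, s ^ 3 ≤ n * t ∧ n * t < (s + 1) ^ 3 := by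
    have hex : ∃ m, n * t < (m + 1) ^ 3 :=
      ⟨n * t, by nlinarith [Nat.zero_le ((n * t) ^ 3), Nat.zero_le ((n * t) ^ 2)]⟩
    refine ⟨Nat.find hex, ?_, Nat.find_spec hex⟩
    rcases Nat.eq_zero_or_pos (Nat.find hex) with h0 | h0
    · rw [h0]
      omega
    · have h1 := Nat.find_min hex (Nat.sub_lt h0 one_pos)
      have h2 : Nat.find hex - 1 + 1 = Nat.find hex := by omega
      rw [h2] at h1
      omega
  have hs : 3 ≤ s := by
    by_contra hcon
    have h1 : s + 1 ≤ 3 := by omega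
    have h2 := Nat.pow_le_pow_left h1 3
    omega
  have h8s : 8 * s ≤ t := by
    have h1 : (8 * s) ^ 3 ≤ t ^ 3 := by
      calc (8 * s) ^ 3 = 512 * s ^ 3 := by ring
        _ ≤ 512 * (n * t) := Nat.mul_le_mul_left _ hs1
        _ = (512 * n) * t := by ring
        _ ≤ t ^ 2 * t := Nat.mul_le_mul_right _ h512
        _ = t ^ 3 := by ring
    exact (Nat.pow_le_pow_iff_left (by norm_num)).1 h1
  set A := t / s with hA
  have hs0 : 0 < s := by omega
  have hA8 : 8 ≤ A := (Nat.le_div_iff_mul_le hs0).2 h8s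
  have hAs : A * s ≤ t := Nat.div_mul_le_self t s
  have hAs' : t < (A + 1) * s := by
    have := Nat.lt_div_mul_add (a := t) hs0
    rw [← hA] at this
    nlinarith
  have hAt : A ≤ t := Nat.div_le_self t s
  set D := A / 4 with hD
  have hD1 : 4 * D ≤ A := Nat.mul_div_le A 4
  have hD2 : A ≤ 4 * D + 3 := by omega
  have hts : t * s < p := by
    have h1 : (t * s) ^ 3 < p ^ 3 := by
      calc (t * s) ^ 3 = t ^ 3 * s ^ 3 := by ring
        _ ≤ t ^ 3 * (n * t) := Nat.mul_le_mul_left _ hs1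
        _ = n * t ^ 4 := by ring
        _ < _ := htp
    exact lt_of_pow_lt_pow_left₀ 3 (Nat.zero_le _) h1
  have hts' : t * s = t * (s - 1) + t := by
    obtain ⟨r, rfl⟩ : ∃ r, s = r + 1 := ⟨s - 1, by omega⟩
    rw [Nat.add_sub_cancel]
    ring
  have hst : 5 * (n * t) < 16 * s ^ 3 := by
    have h1 : 3 * (s + 1) ≤ 4 * s := by omega
    have h2 := Nat.pow_le_pow_left h1 3
    have h3 : (3 * (s + 1)) ^ 3 = 27 * (s + 1) ^ 3 := by ring
    have h4 : (4 * s) ^ 3 = 64 * s ^ 3 := by ring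
    have h5 : 0 < s ^ 3 := by positivity
    omega
  have hcond : n * (D * (A + D)) < s * (s * A) := by
    have e1 : 16 * (D * (A + D)) ≤ 5 * A ^ 2 := by
      have : (4 * D) * (4 * A + 4 * D) ≤ A * (5 * A) := Nat.mul_le_mul hD1 (by omega)
      nlinarith
    have e2 : 16 * (n * (D * (A + D))) * s ≤ 5 * (n * t) * A := by
      calc 16 * (n * (D * (A + D))) * s = n * s * (16 * (D * (A + D))) := by ring
        _ ≤ n * s * (5 * A ^ 2) := Nat.mul_le_mul_left _ e1
        _ = 5 * n * A * (A * s) := by ring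
        _ ≤ 5 * n * A * t := Nat.mul_le_mul_left _ hAs
        _ = _ := by ring
    have e3 : 5 * (n * t) * A < 16 * s ^ 3 * A := Nat.mul_lt_mul_of_pos_right hst (by omega)
    have e4 : 16 * s ^ 3 * A = 16 * (s * (s * A)) * s := by ring
    have e5 : 16 * (n * (D * (A + D))) * s < 16 * (s * (s * A)) * s := by omega
    have e6 := Nat.lt_of_mul_lt_mul_right e5
    omega
  have key := stepanov_m (p := p) n t A s D (by omega) hAt hAs (by omega) hcond (by
      have h1 : t ≤ t * s := Nat.le_mul_of_pos_right _ (by omega)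
      omega) α β hα hβ U hU
  have k1 : U.card * D ≤ 2 * (t * s) := by omega
  -- 36 D s ≥ 5 t
  have k2 : 5 * t ≤ 36 * (D * s) := by
    have e1 : 5 * (A + 1) ≤ 36 * D := by omega
    calc 5 * t ≤ 5 * ((A + 1) * s) := by omega
      _ = (5 * (A + 1)) * s := by ring
      _ ≤ (36 * D) * s := Nat.mul_le_mul_right _ e1
      _ = _ := by ring
  have k3 : U.card ≤ 15 * s ^ 2 := by
    have e1 : U.card * (5 * t) ≤ 72 * s ^ 2 * t := by
      calc U.card * (5 * t) ≤ U.card * (36 * (D * s)) := Nat.mul_le_mul_left _ k2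
        _ = 36 * s * (U.card * D) := by ring
        _ ≤ 36 * s * (2 * (t * s)) := Nat.mul_le_mul_left _ k1
        _ = 72 * s ^ 2 * t := by ring
    have e2 : (5 * U.card) * t ≤ (75 * s ^ 2) * t := by nlinarith [Nat.zero_le (s ^ 2 * t)]
    have e3 := Nat.le_of_mul_le_mul_right e2 (by omega)
    omega
  calc U.card ^ 3 ≤ (15 * s ^ 2) ^ 3 := Nat.pow_le_pow_left k3 3
    _ = 3375 * (s ^ 3) ^ 2 := by ring
    _ ≤ 3375 * (n * t) ^ 2 := Nat.mul_le_mul_left _ (Nat.pow_le_pow_left hs1 2)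

end Pool.Agent.J4.H80.HB
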