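import Pool.Agent.J4.H80.HB.A

/-! # The energy of a subgroup of order less than `P ^ (2/3)` -/

set_option autoImplicit false

namespace Pool.Agent.J4.H80.HB

open Finset

/-- level sets -/
theorem sq_le_of_sub {ι : Type} [DecidableEq ι] (T : Finset ι) (R : ι → ℝ) (hR : ∀ i, 0 ≤ R i)
    (M : ℝ) (hM : 0 ≤ M)
    (h : ∀ I ⊆ T, ∑ i ∈ I, R i ≤ M * ((I.card : ℝ) ^ (1 / 3 : ℝ)) ^ 2) :
    ∑ i ∈ T, R i ^ 2 ≤ 3 * M ^ 2 * (T.card : ℝ) ^ (1 / 3 : ℝ) := by
  induction T using Finset.induction_on_min_value (f := R) with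
  | empty => simp
  | insert a s has hmin ih =>
    have ih' := ih fun I hI => h I (hI.trans (subset_insert _ _))
    rw [sum_insert has]
    have h1 := h (insert a s) (Subset.refl _)
    rw [sum_insert has] at h1
    have hcard : ((insert a s).card : ℝ) = s.card + 1 := by
      rw [card_insert_of_notMem has]
      push_cast
      ring
    have h2 : (s.card : ℝ) * R a ≤ ∑ i ∈ s, R i := by
      rw [← nsmul_eq_mul]
      exact Finset.card_nsmul_le_sum s R (R a) hmin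
    set x : ℝ := ((insert a s).card : ℝ) ^ (1 / 3 : ℝ) with hx
    set y : ℝ := (s.card : ℝ) ^ (1 / 3 : ℝ) with hy
    have hx3 : x ^ 3 = s.card + 1 := by
      rw [hx, ← Real.rpow_natCast, ← Real.rpow_mul (Nat.cast_nonneg _), hcard]
      norm_num
    have hy3 : y ^ 3 = s.card := by
      rw [hy, ← Real.rpow_natCast, ← Real.rpow_mul (Nat.cast_nonneg _)]
      norm_num
    have hx0 : 0 < x := by
      rw [hx, hcard]
      positivity
    have hy0 : 0 ≤ y := by rw [hy]; positivity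
    have h3 : x ^ 3 * R a ≤ M * x ^ 2 := by
      rw [hx3]
      linarith
    have h4 : x * R a ≤ M := by
      have : x ^ 2 * (x * R a) ≤ x ^ 2 * M := by
        calc x ^ 2 * (x * R a) = x ^ 3 * R a := by ring
          _ ≤ M * x ^ 2 := h3
          _ = _ := by ring
      exact le_of_mul_le_mul_left this (by positivity)
    have h5 : x ^ 2 * R a ^ 2 ≤ M ^ 2 := by
      have := pow_le_pow_left₀ (mul_nonneg hx0.le (hR a)) h4 2
      calc x ^ 2 * R a ^ 2 = (x * R a) ^ 2 := by ring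
        _ ≤ _ := this
    have hxy : y ≤ x := by
      have : y ^ 3 ≤ x ^ 3 := by rw [hx3, hy3]; linarith
      exact (pow_le_pow_iff_left₀ hy0 hx0.le (by norm_num)).1 this
    have h6 : 1 ≤ 3 * x ^ 2 * (x - y) := by
      have e1 : (x - y) * (x ^ 2 + x * y + y ^ 2) = 1 := by
        have : (x - y) * (x ^ 2 + x * y + y ^ 2) = x ^ 3 - y ^ 3 := by ring
        rw [this, hx3, hy3]
        ring
      have e2 : x ^ 2 + x * y + y ^ 2 ≤ 3 * x ^ 2 := by nlinarith
      calc (1 : ℝ) = (x - y) * (x ^ 2 + x * y + y ^ 2) := e1.symm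
        _ ≤ (x - y) * (3 * x ^ 2) := mul_le_mul_of_nonneg_left e2 (by linarith)
        _ = _ := by ring
    have h7 : x ^ 2 * R a ^ 2 ≤ x ^ 2 * (3 * M ^ 2 * (x - y)) := by
      calc x ^ 2 * R a ^ 2 ≤ M ^ 2 * 1 := by rw [mul_one]; exact h5
        _ ≤ M ^ 2 * (3 * x ^ 2 * (x - y)) := mul_le_mul_of_nonneg_left h6 (by positivity)
        _ = _ := by ring
    have h8 : R a ^ 2 ≤ 3 * M ^ 2 * (x - y) := le_of_mul_le_mul_left h7 (by positivity)
    calc R a ^ 2 + ∑ i ∈ s, R i ^ 2 ≤ 3 * M ^ 2 * (x - y) + 3 * M ^ 2 * y := add_le_add h8 ih'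
      _ = 3 * M ^ 2 * x := by ring

theorem sq_le_of_small {ι : Type} [DecidableEq ι] (Y : Finset ι) (R : ι → ℝ) (hR : ∀ i, 0 ≤ R i)
    (M S : ℝ) (hM : 0 < M) (n : ℕ) (hn : 1 ≤ n) (hS : ∑ i ∈ Y, R i ≤ S)
    (h : ∀ I ⊆ Y, I.card ≤ n → ∑ i ∈ I, R i ≤ M * ((I.card : ℝ) ^ (1 / 3 : ℝ)) ^ 2) :
    ∑ i ∈ Y, R i ^ 2 ≤ 3 * M ^ 2 * (n : ℝ) ^ (1 / 3 : ℝ) + M / (n : ℝ) ^ (1 / 3 : ℝ) * S := by
  set u : ℝ := (n : ℝ) ^ (1 / 3 : ℝ) with hu
  have hn0 : (0 : ℝ) < n := by exact_mod_cast hn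
  have hu0 : 0 < u := by positivity
  have hu3 : u ^ 3 = n := by
    rw [hu, ← Real.rpow_natCast, ← Real.rpow_mul hn0.le]
    norm_num
  set T := Y.filter fun i => M / u < R i with hT
  have hTn : T.card ≤ n := by
    by_contra hcon
    push Not at hcon
    obtain ⟨I, hI, hIc⟩ := exists_subset_card_eq hcon.le
    have h1 := h I (hI.trans (filter_subset _ _)) hIc.le
    rw [hIc, ← hu] at h1
    have hne : I.Nonempty := by
      rw [← card_pos, hIc]
      omega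
    have h2 : ∑ i ∈ I, M / u < ∑ i ∈ I, R i :=
      sum_lt_sum_of_nonempty hne fun i hi => (mem_filter.1 (hI hi)).2
    rw [sum_const, hIc, nsmul_eq_mul, ← hu3] at h2
    have h3 : u ^ 3 * (M / u) = M * u ^ 2 := by
      field_simp
    linarith
  have h1 := sq_le_of_sub T R hR M hM.le fun I hI =>
    h I (hI.trans (filter_subset _ _)) ((card_le_card hI).trans hTn)
  have h2 : (T.card : ℝ) ^ (1 / 3 : ℝ) ≤ u := by
    rw [hu]
    exact Real.rpow_le_rpow (Nat.cast_nonneg _) (by exact_mod_cast hTn) (by norm_num)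
  have h3 : ∑ i ∈ Y.filter (fun i => ¬ M / u < R i), R i ^ 2 ≤ M / u * S := by
    calc ∑ i ∈ Y.filter (fun i => ¬ M / u < R i), R i ^ 2 ≤
          ∑ i ∈ Y.filter (fun i => ¬ M / u < R i), M / u * R i := by
          refine sum_le_sum fun i hi => ?_
          have := (mem_filter.1 hi).2
          rw [not_lt] at this
          rw [sq]
          exact mul_le_mul_of_nonneg_right this (hR i)
      _ ≤ ∑ i ∈ Y, M / u * R i :=
          sum_le_sum_of_subset_of_nonneg (filter_subset _ _) fun i _ _ =>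
            mul_nonneg (by positivity) (hR i)
      _ = M / u * ∑ i ∈ Y, R i := by rw [mul_sum]
      _ ≤ M / u * S := mul_le_mul_of_nonneg_left hS (by positivity)
  rw [← sum_filter_add_sum_filter_not Y (fun i => M / u < R i)]
  refine add_le_add ?_ h3
  refine h1.trans ?_
  exact mul_le_mul_of_nonneg_left h2 (by positivity)

variable {P : ℕ} [Fact P.Prime]

open scoped Classical in
/-- the number of representations as a difference -/
noncomputable def rr (S : Finset (ZMod P)) (x : ZMod P) : ℕ :=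
  ((S ×ˢ S).filter fun w => w.1 - w.2 = x).card

/-- the number of representations of several elements of different cosets -/
theorem rr_cosets (S I : Finset (ZMod P)) (t : ℕ) (ht27 : 27 ≤ t)
    (hpow : ∀ b ∈ S, b ^ t = 1) (σ : ZMod P → ZMod P)
    (hσ : ∀ y ∈ I, σ y ≠ 0 ∧ σ y ^ t = y) (h512 : 512 * I.card ≤ t ^ 2)
    (htp : I.card * t ^ 4 < P ^ 3) :
    (∑ y ∈ I, (rr S (σ y) : ℝ)) ≤
      15 * ((t : ℝ) ^ (1 / 3 : ℝ)) ^ 2 * ((I.card : ℝ) ^ (1 / 3 : ℝ)) ^ 2 := by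
  classical
  rcases I.eq_empty_or_nonempty with rfl | hne
  · simp
  set U : Finset (ZMod P) := univ.filter fun u => ∃ y ∈ I, u ^ t = y⁻¹ ∧ (u - 1) ^ t = y⁻¹ with hU
  have h1 : ∑ y ∈ I, rr S (σ y) ≤ U.card := by
    unfold rr
    rw [← card_sigma]
    refine card_le_card_of_injOn (fun w => w.2.1 / σ w.1) ?_ ?_
    · rintro ⟨y, w⟩ hw
      rw [mem_coe, mem_sigma, mem_filter, mem_product] at hw
      obtain ⟨hy, ⟨hw1, hw2⟩, hw3⟩ := hw
      obtain ⟨hs0, hst⟩ := hσ y hy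
      rw [mem_coe, hU, mem_filter]
      refine ⟨mem_univ _, y, hy, ?_, ?_⟩
      · simp only
        rw [div_pow, hpow _ hw1, hst, one_div]
      · have h2 : w.1 / σ y - 1 = w.2 / σ y := by
          simp only at hw3
          have h3 : w.1 = w.2 + σ y := by rw [← hw3]; ring
          rw [h3, add_div, div_self hs0, add_sub_cancel_right]
        simp only
        rw [h2, div_pow, hpow _ hw2, hst, one_div]
    · rintro ⟨y, w⟩ hw ⟨y', w'⟩ hw' h2
      rw [mem_coe, mem_sigma, mem_filter, mem_product] at hw hw'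
      obtain ⟨hy, ⟨hw1, hw2⟩, hw3⟩ := hw
      obtain ⟨hy', ⟨hw1', hw2'⟩, hw3'⟩ := hw'
      obtain ⟨hs0, hst⟩ := hσ y hy
      obtain ⟨hs0', hst'⟩ := hσ y' hy'
      simp only at h2 hw1 hw2 hw3 hw1' hw2' hw3' hs0 hst hs0' hst'
      have h3 : y = y' := by
        have e1 : (w.1 / σ y) ^ t = y⁻¹ := by rw [div_pow, hpow _ hw1, hst, one_div]
        have e2 : (w'.1 / σ y') ^ t = y'⁻¹ := by rw [div_pow, hpow _ hw1', hst', one_div]
        rw [h2, e2] at e1
        exact (inv_injective e1).symm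
      subst h3
      have h4 : w.1 = w'.1 := by
        have h5 := congrArg (fun z => z * σ y) h2
        simpa [div_mul_cancel₀ _ hs0] using h5
      have h6 : w = w' := by
        refine Prod.ext h4 ?_
        have e1 : w.2 = w.1 - σ y := by rw [← hw3]; ring
        have e2 : w'.2 = w'.1 - σ y := by rw [← hw3']; ring
        rw [e1, e2, h4]
      rw [h6]
  have hI0 : ∀ y ∈ I, y ≠ 0 := by
    intro y hy
    obtain ⟨hs0, hst⟩ := hσ y hy
    rw [← hst]
    exact pow_ne_zero _ hs0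
  have hc1 : 1 ≤ I.card := hne.card_pos
  have h2 := hbk_m (p := P) I.card t (by nlinarith) h512 htp
    (fun j => ((I.equivFin.symm j : I) : ZMod P)⁻¹) (fun j => ((I.equivFin.symm j : I) : ZMod P)⁻¹)
    (fun j => inv_ne_zero (hI0 _ (I.equivFin.symm j).2))
    (fun j => inv_ne_zero (hI0 _ (I.equivFin.symm j).2)) U (by
      intro u hu
      rw [hU, mem_filter] at hu
      obtain ⟨-, y, hy, h3, h4⟩ := hu
      refine ⟨I.equivFin ⟨y, hy⟩, ?_, ?_⟩
      · rw [Equiv.symm_apply_apply]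
        exact h3
      · rw [Equiv.symm_apply_apply]
        exact h4)
  have h3 : ((∑ y ∈ I, rr S (σ y) : ℕ) : ℝ) ^ 3 ≤ 3375 * ((I.card : ℝ) * t) ^ 2 := by
    exact_mod_cast (Nat.pow_le_pow_left h1 3).trans h2
  have ht0 : (0 : ℝ) ≤ t := Nat.cast_nonneg _
  have hI0' : (0 : ℝ) ≤ I.card := Nat.cast_nonneg _
  have e1 : (15 * ((t : ℝ) ^ (1 / 3 : ℝ)) ^ 2 * ((I.card : ℝ) ^ (1 / 3 : ℝ)) ^ 2) ^ 3 =
      3375 * ((I.card : ℝ) * t) ^ 2 := by
    have a1 : ((t : ℝ) ^ (1 / 3 : ℝ)) ^ 3 = t := by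
      rw [← Real.rpow_natCast, ← Real.rpow_mul ht0]
      norm_num
    have a2 : ((I.card : ℝ) ^ (1 / 3 : ℝ)) ^ 3 = I.card := by
      rw [← Real.rpow_natCast, ← Real.rpow_mul hI0']
      norm_num
    calc (15 * ((t : ℝ) ^ (1 / 3 : ℝ)) ^ 2 * ((I.card : ℝ) ^ (1 / 3 : ℝ)) ^ 2) ^ 3 =
        3375 * (((I.card : ℝ) ^ (1 / 3 : ℝ)) ^ 3 * ((t : ℝ) ^ (1 / 3 : ℝ)) ^ 3) ^ 2 := by ring
      _ = _ := by rw [a1, a2]
  have h4 : ((∑ y ∈ I, rr S (σ y) : ℕ) : ℝ) ≤
      15 * ((t : ℝ) ^ (1 / 3 : ℝ)) ^ 2 * ((I.card : ℝ) ^ (1 / 3 : ℝ)) ^ 2 := by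
    refine (pow_le_pow_iff_left₀ (Nat.cast_nonneg _) (by positivity) (by norm_num : (3 : ℕ) ≠ 0)).1 ?_
    rw [e1]
    exact h3
  push_cast at h4
  exact h4

end Pool.Agent.J4.H80.HB
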