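import Pool.Agent.J4.H80.HB.B

/-! # The energy of a subgroup of order less than `P ^ (2/3)`: the bound `t ^ (5/2)` -/

set_option autoImplicit false

namespace Pool.Agent.J4.H80.HB

open Finset

variable {P : ℕ} [Fact P.Prime]

lemma mem_iff_pow (H : Subgroup (ZMod P)ˣ) (S : Finset (ZMod P))
    (hS : ∀ x, x ∈ S ↔ ∃ h ∈ H, ((h : (ZMod P)ˣ) : ZMod P) = x) (t : ℕ) (ht : S.card = t)
    (ht1 : 1 ≤ t) (x : ZMod P) : x ∈ S ↔ x ^ t = 1 := by
  classical
  have hcard : Nat.card H = t := by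
    rw [← ht]
    have h1 : S = (univ.filter fun h : (ZMod P)ˣ => h ∈ H).image
        (fun h : (ZMod P)ˣ => (h : ZMod P)) := by
      ext x
      rw [hS, mem_image]
      simp only [mem_filter, mem_univ, true_and]
    rw [h1, card_image_of_injective _ Units.val_injective, Nat.card_eq_fintype_card]
    exact Fintype.card_subtype _
  have hpow : ∀ b ∈ S, b ^ t = 1 := by
    intro b hb
    obtain ⟨h, hh, rfl⟩ := (hS b).1 hb
    have h1 : (⟨h, hh⟩ : H) ^ t = 1 := by rw [← hcard]; exact pow_card_eq_one'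
    have h2 : h ^ t = 1 := by simpa using congrArg Subtype.val h1
    rw [← Units.val_pow_eq_pow_val, h2, Units.val_one]
  have hsub : S ⊆ (Polynomial.nthRoots t (1 : ZMod P)).toFinset := by
    intro b hb
    rw [Multiset.mem_toFinset, Polynomial.mem_nthRoots (by omega)]
    exact hpow b hb
  have hle : (Polynomial.nthRoots t (1 : ZMod P)).toFinset.card ≤ S.card := by
    rw [ht]
    exact (Multiset.toFinset_card_le _).trans (Polynomial.card_nthRoots t 1)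
  have heq := eq_of_subset_of_card_le hsub hle
  rw [heq, Multiset.mem_toFinset, Polynomial.mem_nthRoots (by omega)]

open scoped Classical in
theorem energy_eq (S : Finset (ZMod P)) :
    ((((S ×ˢ S) ×ˢ (S ×ˢ S)).filter fun w => w.1.1 - w.1.2 = w.2.1 - w.2.2).card : ℝ) =
      ∑ x : ZMod P, (rr S x : ℝ) ^ 2 := by
  have h1 : ((((S ×ˢ S) ×ˢ (S ×ˢ S)).filter fun w => w.1.1 - w.1.2 = w.2.1 - w.2.2).card : ℝ) =
      ∑ u ∈ S ×ˢ S, (rr S (u.1 - u.2) : ℝ) := by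
    rw [card_filter, sum_product]
    push_cast
    refine sum_congr rfl fun u _ => ?_
    unfold rr
    rw [card_filter]
    push_cast
    exact sum_congr rfl fun w _ => by simp only [eq_comm]
  rw [h1, ← sum_fiberwise_of_maps_to (s := S ×ˢ S) (t := univ) (g := fun w => w.1 - w.2)
    (fun _ _ => mem_univ _)]
  refine sum_congr rfl fun d _ => ?_
  rw [sum_congr rfl (g := fun _ => (rr S d : ℝ)) (fun w hw => by rw [(mem_filter.1 hw).2]),
    sum_const, nsmul_eq_mul, sq]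
  rfl

theorem sum_rr (S : Finset (ZMod P)) : ∑ x : ZMod P, (rr S x : ℝ) = (S.card : ℝ) ^ 2 := by
  classical
  have := card_eq_sum_card_fiberwise (s := S ×ˢ S) (t := univ) (f := fun w => w.1 - w.2)
    (fun _ _ => mem_univ _)
  rw [card_product] at this
  have h' : ((S.card * S.card : ℕ) : ℝ) = ∑ d : ZMod P, (rr S d : ℝ) := by
    unfold rr
    exact_mod_cast this
  rw [← h']
  push_cast
  ring

theorem rr_zero (S : Finset (ZMod P)) : rr S 0 = S.card := by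
  classical
  unfold rr
  have : (S ×ˢ S).filter (fun w => w.1 - w.2 = 0) = S.image fun x => (x, x) := by
    ext ⟨x, y⟩
    simp only [mem_filter, mem_product, mem_image, Prod.mk.injEq, sub_eq_zero]
    constructor
    · rintro ⟨⟨h1, _⟩, h3⟩
      exact ⟨x, h1, rfl, h3⟩
    · rintro ⟨z, h1, rfl, rfl⟩
      exact ⟨⟨h1, h1⟩, rfl⟩
  rw [this, card_image_of_injective]
  intro x y hxy
  exact (Prod.mk.inj hxy).1

/-- **The energy of a subgroup.** -/
theorem energy52 (H : Subgroup (ZMod P)ˣ) (S : Finset (ZMod P))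
    (hS : ∀ x, x ∈ S ↔ ∃ h ∈ H, ((h : (ZMod P)ˣ) : ZMod P) = x) (t : ℕ) (ht : S.card = t)
    (ht1 : 1 ≤ t) (htp : t ^ 3 < P ^ 2) :
    (∑ x : ZMod P, (rr S x : ℝ) ^ 2) ≤ 700 * (t : ℝ) ^ (5 / 2 : ℝ) := by
  classical
  have ht0 : (0 : ℝ) < t := by exact_mod_cast ht1
  have ht1' : (1 : ℝ) ≤ t := by exact_mod_cast ht1
  have hmem := mem_iff_pow H S hS t ht ht1
  have hrle : ∀ x, (rr S x : ℝ) ≤ t := by
    intro x
    have h1 : rr S x ≤ S.card := by
      unfold rr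
      refine card_le_card_of_injOn (fun w => w.1) ?_ ?_
      · intro w hw
        rw [mem_coe, mem_filter, mem_product] at hw
        exact hw.1.1
      · intro w hw w' hw' h2
        rw [mem_coe, mem_filter] at hw hw'
        refine Prod.ext h2 ?_
        have e1 : w.2 = w.1 - x := by rw [← hw.2]; ring
        have e2 : w'.2 = w'.1 - x := by rw [← hw'.2]; ring
        simp only at h2
        rw [e1, e2, h2]
    rw [ht] at h1
    exact_mod_cast h1
  rcases Nat.lt_or_ge t 64 with hsmall | hbig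
  · have h1 : ∑ x : ZMod P, (rr S x : ℝ) ^ 2 ≤ t * ∑ x : ZMod P, (rr S x : ℝ) := by
      rw [mul_sum]
      refine sum_le_sum fun x _ => ?_
      rw [sq]
      exact mul_le_mul_of_nonneg_right (hrle x) (Nat.cast_nonneg _)
    rw [sum_rr, ht] at h1
    have e1 : (t : ℝ) ^ (5 / 2 : ℝ) = t ^ 2 * (t : ℝ) ^ (1 / 2 : ℝ) := by
      rw [← Real.rpow_natCast, ← Real.rpow_add ht0]
      norm_num
    have e2 : (t : ℝ) ≤ 8 * (t : ℝ) ^ (1 / 2 : ℝ) := by
      have a1 : ((t : ℝ) ^ (1 / 2 : ℝ)) * ((t : ℝ) ^ (1 / 2 : ℝ)) = t := by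
        rw [← Real.rpow_add ht0]; norm_num
      have a2 : (t : ℝ) ^ (1 / 2 : ℝ) ≤ 8 := by
        have : (t : ℝ) ≤ 64 := by exact_mod_cast hsmall.le
        calc (t : ℝ) ^ (1 / 2 : ℝ) ≤ (64 : ℝ) ^ (1 / 2 : ℝ) :=
              Real.rpow_le_rpow ht0.le this (by norm_num)
          _ = 8 := by
              rw [show (64 : ℝ) = 8 ^ (2 : ℝ) by norm_num, ← Real.rpow_mul (by norm_num)]
              norm_num
      have a3 : 0 ≤ (t : ℝ) ^ (1 / 2 : ℝ) := by positivity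
      nlinarith
    rw [e1]
    have a3 : 0 ≤ (t : ℝ) ^ 2 * (t : ℝ) ^ (1 / 2 : ℝ) := by positivity
    nlinarith [mul_le_mul_of_nonneg_left e2 (show 0 ≤ (t : ℝ) ^ 2 by positivity)]
  -- representatives
  set σ : ZMod P → ZMod P := fun y => if h : ∃ x : ZMod P, x ≠ 0 ∧ x ^ t = y then h.choose else 0
    with hσdef
  set Y : Finset (ZMod P) := (univ.erase (0 : ZMod P)).image fun x => x ^ t with hY
  have hσ : ∀ y ∈ Y, σ y ≠ 0 ∧ σ y ^ t = y := by
    intro y hy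
    rw [hY, mem_image] at hy
    obtain ⟨x, hx, hxy⟩ := hy
    have h : ∃ x : ZMod P, x ≠ 0 ∧ x ^ t = y := ⟨x, (mem_erase.1 hx).1, hxy⟩
    simp only [hσdef]
    rw [dif_pos h]
    exact h.choose_spec
  have hfib : ∀ y ∈ Y, (univ.erase (0 : ZMod P)).filter (fun x => x ^ t = y) =
      S.image fun κ => κ * σ y := by
    intro y hy
    obtain ⟨h1, h2⟩ := hσ y hy
    ext x
    rw [mem_filter, mem_erase, mem_image]
    constructor
    · rintro ⟨⟨hx0, _⟩, hx⟩
      refine ⟨x / σ y, ?_, div_mul_cancel₀ _ h1⟩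
      rw [hmem, div_pow, hx, h2]
      apply div_self
      rw [← hx]
      exact pow_ne_zero _ hx0
    · rintro ⟨κ, hκ, rfl⟩
      have hκ0 : κ ≠ 0 := by
        obtain ⟨h, _, rfl⟩ := (hS κ).1 hκ
        exact h.ne_zero
      refine ⟨⟨mul_ne_zero hκ0 h1, mem_univ _⟩, ?_⟩
      rw [mul_pow, (hmem κ).1 hκ, one_mul, h2]
  have hfc : ∀ y ∈ Y, ((univ.erase (0 : ZMod P)).filter (fun x => x ^ t = y)).card = t := by
    intro y hy
    rw [hfib y hy, card_image_of_injective _ (mul_left_injective₀ (hσ y hy).1), ht]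
  have hrinv : ∀ x, ∀ κ ∈ S, rr S (κ * x) = rr S x := by
    intro x κ hκ
    have hκ0 : κ ≠ 0 := by
      obtain ⟨h, _, rfl⟩ := (hS κ).1 hκ
      exact h.ne_zero
    have hinvS : κ⁻¹ ∈ S := by rw [hmem, inv_pow, (hmem κ).1 hκ, inv_one]
    have hmul : ∀ a ∈ S, ∀ b ∈ S, a * b ∈ S := by
      intro a ha b hb
      rw [hmem, mul_pow, (hmem a).1 ha, (hmem b).1 hb, one_mul]
    unfold rr
    refine card_bij' (fun w _ => (κ⁻¹ * w.1, κ⁻¹ * w.2)) (fun w _ => (κ * w.1, κ * w.2)) ?_ ?_ ?_ ?_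
    · intro w hw
      rw [mem_filter, mem_product] at hw ⊢
      refine ⟨⟨hmul _ hinvS _ hw.1.1, hmul _ hinvS _ hw.1.2⟩, ?_⟩
      rw [← mul_sub, hw.2, ← mul_assoc, inv_mul_cancel₀ hκ0, one_mul]
    · intro w hw
      rw [mem_filter, mem_product] at hw ⊢
      refine ⟨⟨hmul _ hκ _ hw.1.1, hmul _ hκ _ hw.1.2⟩, ?_⟩
      rw [← mul_sub, hw.2]
    · intro w _
      simp only
      rw [← mul_assoc, ← mul_assoc, mul_inv_cancel₀ hκ0, one_mul, one_mul]
    · intro w _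
      simp only
      rw [← mul_assoc, ← mul_assoc, inv_mul_cancel₀ hκ0, one_mul, one_mul]
  have hconst : ∀ y ∈ Y, ∀ x ∈ (univ.erase (0 : ZMod P)).filter (fun x => x ^ t = y),
      rr S x = rr S (σ y) := by
    intro y hy x hx
    rw [hfib y hy, mem_image] at hx
    obtain ⟨κ, hκ, rfl⟩ := hx
    exact hrinv _ κ hκ
  have hsplit : ∀ f : ℕ → ℝ, ∑ x ∈ univ.erase (0 : ZMod P), f (rr S x) =
      t * ∑ y ∈ Y, f (rr S (σ y)) := by
    intro f
    rw [← sum_fiberwise_of_maps_to (s := univ.erase (0 : ZMod P)) (t := Y) (g := fun x => x ^ t)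
      (fun x hx => mem_image_of_mem _ hx), mul_sum]
    refine sum_congr rfl fun y hy => ?_
    rw [sum_congr rfl (g := fun _ => f (rr S (σ y))) (fun x hx => by rw [hconst y hy x hx]),
      sum_const, hfc y hy, nsmul_eq_mul]
  set R : ZMod P → ℝ := fun y => (rr S (σ y) : ℝ) with hR
  have hR0 : ∀ y, 0 ≤ R y := fun y => Nat.cast_nonneg _
  have hRsum : ∑ y ∈ Y, R y ≤ t := by
    have h1 := hsplit (fun n => (n : ℝ))
    have h2 : ∑ x ∈ univ.erase (0 : ZMod P), (rr S x : ℝ) ≤ t ^ 2 := by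
      rw [← ht, ← sum_rr]
      exact sum_le_sum_of_subset_of_nonneg (erase_subset _ _) fun _ _ _ => Nat.cast_nonneg _
    rw [h1] at h2
    have h3 : (t : ℝ) * ∑ y ∈ Y, R y ≤ t * t := by
      rw [← sq]; exact h2
    exact le_of_mul_le_mul_left h3 ht0
  -- the parameters
  set n := Nat.sqrt t with hn
  have hn1 : n * n ≤ t := Nat.sqrt_le t
  have hn2 : t < (n + 1) * (n + 1) := Nat.lt_succ_sqrt t
  have hn8 : 8 ≤ n := by
    by_contra hcon
    have : (n + 1) * (n + 1) ≤ 8 * 8 := Nat.mul_le_mul (by omega) (by omega)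
    omega
  have hbound : ∀ I ⊆ Y, I.card ≤ n → ∑ y ∈ I, R y ≤
      15 * ((t : ℝ) ^ (1 / 3 : ℝ)) ^ 2 * ((I.card : ℝ) ^ (1 / 3 : ℝ)) ^ 2 := by
    intro I hI hIn
    refine rr_cosets S I t (by omega) (fun b hb => (hmem b).1 hb) σ (fun y hy => hσ y (hI hy)) ?_ ?_
    · calc 512 * I.card ≤ 512 * n := Nat.mul_le_mul_left _ hIn
        _ = 64 * (8 * n) := by ring
        _ ≤ 64 * (n * n) := Nat.mul_le_mul_left _ (Nat.mul_le_mul_right _ hn8)
        _ ≤ 64 * t := Nat.mul_le_mul_left _ hn1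
        _ ≤ t * t := Nat.mul_le_mul_right _ hbig
        _ = t ^ 2 := by ring
    · have h1 : (I.card * t ^ 4) ^ 2 < (P ^ 3) ^ 2 := by
        calc (I.card * t ^ 4) ^ 2 ≤ (n * t ^ 4) ^ 2 :=
              Nat.pow_le_pow_left (Nat.mul_le_mul_right _ hIn) 2
          _ = (n * n) * t ^ 8 := by ring
          _ ≤ t * t ^ 8 := Nat.mul_le_mul_right _ hn1
          _ = (t ^ 3) ^ 3 := by ring
          _ < (P ^ 2) ^ 3 := Nat.pow_lt_pow_left htp (by norm_num)
          _ = (P ^ 3) ^ 2 := by ring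
      exact lt_of_pow_lt_pow_left₀ 2 (Nat.zero_le _) h1
  have hM0 : 0 < 15 * ((t : ℝ) ^ (1 / 3 : ℝ)) ^ 2 := by positivity
  have hmain := sq_le_of_small Y R hR0 (15 * ((t : ℝ) ^ (1 / 3 : ℝ)) ^ 2) t hM0 n (by omega) hRsum
    hbound
  -- arithmetic
  set v : ℝ := (t : ℝ) ^ (1 / 6 : ℝ) with hv
  have hv0 : 0 < v := by positivity
  have hv1 : 1 ≤ v := Real.one_le_rpow ht1' (by norm_num)
  have hv2 : (t : ℝ) ^ (1 / 3 : ℝ) = v ^ 2 := by
    rw [hv, ← Real.rpow_natCast, ← Real.rpow_mul ht0.le]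
    norm_num
  have hv6 : (t : ℝ) = v ^ 6 := by
    rw [hv, ← Real.rpow_natCast, ← Real.rpow_mul ht0.le]
    norm_num
  have hv15 : (t : ℝ) ^ (5 / 2 : ℝ) = v ^ 15 := by
    rw [hv, ← Real.rpow_natCast, ← Real.rpow_mul ht0.le]
    norm_num
  set u : ℝ := (n : ℝ) ^ (1 / 3 : ℝ) with hu
  have hn0 : (0 : ℝ) < n := by
    have : 0 < n := by omega
    exact_mod_cast this
  have hu0 : 0 < u := by positivity
  have hu3 : u ^ 3 = n := by
    rw [hu, ← Real.rpow_natCast, ← Real.rpow_mul hn0.le]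
    norm_num
  have hnv : (n : ℝ) ≤ v ^ 3 := by
    have h1 : (n : ℝ) ^ 2 ≤ (v ^ 3) ^ 2 := by
      have : ((n * n : ℕ) : ℝ) ≤ t := by exact_mod_cast hn1
      push_cast at this
      rw [hv6] at this
      nlinarith
    exact (pow_le_pow_iff_left₀ hn0.le (by positivity) (by norm_num)).1 h1
  have huv : u ≤ v := by
    have : u ^ 3 ≤ v ^ 3 := by rw [hu3]; exact hnv
    exact (pow_le_pow_iff_left₀ hu0.le hv0.le (by norm_num)).1 this
  have hvn : v ^ 3 ≤ 9 / 8 * n := by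
    have h1 : v ^ 3 ≤ n + 1 := by
      have h2 : (v ^ 3) ^ 2 ≤ ((n : ℝ) + 1) ^ 2 := by
        have : (t : ℝ) ≤ (((n + 1) * (n + 1) : ℕ) : ℝ) := by exact_mod_cast hn2.le
        push_cast at this
        rw [hv6] at this
        nlinarith
      exact (pow_le_pow_iff_left₀ (by positivity) (by positivity) (by norm_num)).1 h2
    have h8 : (8 : ℝ) ≤ n := by exact_mod_cast hn8
    linarith
  have hvu : v ≤ 9 / 8 * u := by
    have h1 : v ^ 3 ≤ (9 / 8 * u) ^ 3 := by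
      have : (9 / 8 * u) ^ 3 = 729 / 512 * n := by rw [mul_pow, hu3]; norm_num
      rw [this]
      linarith
    exact (pow_le_pow_iff_left₀ hv0.le (by positivity) (by norm_num)).1 h1
  rw [hv2, hv6] at hmain
  have h1 : 3 * (15 * (v ^ 2) ^ 2) ^ 2 * u ≤ 675 * v ^ 9 := by
    calc 3 * (15 * (v ^ 2) ^ 2) ^ 2 * u ≤ 3 * (15 * (v ^ 2) ^ 2) ^ 2 * v :=
          mul_le_mul_of_nonneg_left huv (by positivity)
      _ = 675 * v ^ 9 := by ring
  have h2 : 15 * (v ^ 2) ^ 2 / u * v ^ 6 ≤ 17 * v ^ 9 := by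
    rw [div_mul_eq_mul_div, div_le_iff₀ hu0]
    calc 15 * (v ^ 2) ^ 2 * v ^ 6 = 15 * v ^ 9 * v := by ring
      _ ≤ 15 * v ^ 9 * (9 / 8 * u) := mul_le_mul_of_nonneg_left hvu (by positivity)
      _ ≤ 17 * v ^ 9 * u := by
          have : 0 ≤ v ^ 9 * u := by positivity
          nlinarith
  have h3 := hsplit (fun n => (n : ℝ) ^ 2)
  rw [← add_sum_erase univ _ (mem_univ (0 : ZMod P)), h3, rr_zero, ht, hv15, hv6]
  have h4 : ∑ y ∈ Y, (rr S (σ y) : ℝ) ^ 2 ≤ 692 * v ^ 9 := by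
    refine hmain.trans ?_
    linarith
  have h5 : v ^ 6 * ∑ y ∈ Y, (rr S (σ y) : ℝ) ^ 2 ≤ v ^ 6 * (692 * v ^ 9) :=
    mul_le_mul_of_nonneg_left h4 (by positivity)
  have h6 : (v ^ 6) ^ 2 ≤ v ^ 15 := by
    rw [← pow_mul]
    exact pow_le_pow_right₀ hv1 (by norm_num)
  have h7 : 0 ≤ v ^ 15 := by positivity
  calc (v ^ 6) ^ 2 + v ^ 6 * ∑ y ∈ Y, (rr S (σ y) : ℝ) ^ 2 ≤ v ^ 15 + v ^ 6 * (692 * v ^ 9) :=
        add_le_add h6 h5
    _ = 693 * v ^ 15 := by ring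
    _ ≤ _ := by linarith

end Pool.Agent.J4.H80.HB
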